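import Pool.Agent.Lib.MP_d476f3_gt.Abs.Main

open scoped ENNReal NNReal Manifold ContDiff

namespace Pool.Agent.Results.MP_d476f3_gt.PartitionBound

open Pool.Agent.Lib.MP_d476f3_gt

/-- All absolute systoles of a closed manifold can be prescribed from below, at a volume cost given
by the sum over the partitions of the dimension. -/
theorem result : ∀ (d : ℕ), 1 ≤ d →
    ∀ (M : Type) [TopologicalSpace M] [ChartedSpace (EuclideanSpace ℝ (Fin d)) M]
      [IsManifold (𝓡 d) ∞ M] [T2Space M] [CompactSpace M] [ConnectedSpace M],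
      ∃ C : ℝ≥0, ∀ (t : ℕ → ℝ≥0) (ε : ℝ≥0), 0 < ε →
        ∃ g : Stmt.RMetric (EuclideanSpace ℝ (Fin d)) M,
          (∀ k, 1 ≤ k → k ≤ d → (t k : ℝ≥0∞) ≤ Abs.absys g k) ∧
          Stmt.vol g d Set.univ ≤
            ((C * ∑ p : Nat.Partition d, (p.parts.map t).prod + ε : ℝ≥0) : ℝ≥0∞) := by
  intro d hd M _ _ _ _ _ _
  obtain ⟨C, hC⟩ := Abs.master d hd M
  refine ⟨C, fun t ε hε => ?_⟩
  obtain ⟨g, h1, h2⟩ := hC t ε hε
  exact ⟨g, fun k k0 k1 => le_iInf₂ fun A hA => h1 k k0 k1 A hA, h2⟩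

end Pool.Agent.Results.MP_d476f3_gt.PartitionBound
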