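import Pool.Agent.Lib.MP_d476f3_gt.St.Main

open scoped ENNReal NNReal Manifold ContDiff

namespace Pool.Agent.Results.MP_d476f3_gt.SystolicCategory

open Pool.Agent.Lib.MP_d476f3_gt

/-- On a closed manifold of Lusternik-Schnirelmann category at most `n` all absolute systoles, all
homology systoles of covering spaces and all stable systoles can be made at least `T` at once with
volume of order `T ^ n`: the systolic category is at most the Lusternik-Schnirelmann category. -/
theorem result : ∀ (d n : ℕ), 1 ≤ d →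
    ∀ (M : Type) [TopologicalSpace M] [ChartedSpace (EuclideanSpace ℝ (Fin d)) M]
      [IsManifold (𝓡 d) ∞ M] [T2Space M] [CompactSpace M] [ConnectedSpace M]
      (V : Fin (n + 1) → Set M), (∀ j, IsOpen (V j)) → ⋃ j, V j = Set.univ →
      (∀ j, (⟨Subtype.val, continuous_subtype_val⟩ : C(V j, M)).Nullhomotopic) →
      ∃ C : ℝ≥0, ∀ T : ℝ≥0, 1 ≤ T →
        ∃ g : Stmt.RMetric (EuclideanSpace ℝ (Fin d)) M,
          (∀ j < d, (T : ℝ≥0∞) ≤ Abs.absys g (j + 1) ∧ (T : ℝ≥0∞) ≤ St.hsys g j ∧
            (T : ℝ≥0∞) ≤ St.stsys g j) ∧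
          Stmt.vol g d Set.univ ≤ ((C * T ^ n : ℝ≥0) : ℝ≥0∞) := by
  intro d n hd M _ _ _ _ _ _ V h1 h2 h3
  exact St.stable_master d hd M n V h1 h2 h3

end Pool.Agent.Results.MP_d476f3_gt.SystolicCategory
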