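import Pool.Agent.Lib.MP_d476f3_gt.Bridge

set_option autoImplicit false

open scoped ENNReal NNReal Manifold ContDiff

namespace Pool.Agent.Results.MP_d476f3_gt.SystolicFreedom

open Pool.Agent.Lib.MP_d476f3_gt

/-- Systolic freedom for a single higher systole: on every closed connected smooth `d`-manifold
`M`, for every `2 ≤ k ≤ d - 1` and every `a > 0` some Riemannian metric `g` has
`V(g) ^ k < a * Sys_k(g) ^ d`.  Here `sys g (k - 1)` is the `k`-dimensional systole. -/
theorem result : ∀ (d k : ℕ), 2 ≤ k → k ≤ d - 1 →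
    ∀ (M : Type) [TopologicalSpace M] [ChartedSpace (EuclideanSpace ℝ (Fin d)) M]
      [IsManifold (𝓡 d) ∞ M] [T2Space M] [CompactSpace M] [ConnectedSpace M] (a : ℝ≥0), 0 < a →
      ∃ g : Stmt.RMetric (EuclideanSpace ℝ (Fin d)) M,
        Stmt.vol g d Set.univ ^ k < (a : ℝ≥0∞) * Stmt.sys g (k - 1) ^ d := by
  intro d k hk hd M _ _ _ _ _ _ a ha
  obtain ⟨j, rfl⟩ : ∃ j, k = j + 2 := ⟨k - 2, by omega⟩
  exact stmt_freedom d j (by omega) M a ha

end Pool.Agent.Results.MP_d476f3_gt.SystolicFreedom
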